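import Pool.Agent.helper55.RI.Spec

set_option autoImplicit false

namespace Pool.Agent.RI

open Pool.Agent.helper62 Prog Function Pool.Agent.helper81.PL

/-- length of the compiled program -/
def X6_len : Prog ℕ → ℕ
  | .skip => 1
  | .push _ _ => 1
  | .seq p q => X6_len p + X6_len q
  | .loop _ p q => X6_len p + X6_len q + 1
  | .ifp _ o p q => X6_len o + (X6_len p + X6_len q) + 1

/-- the compiled program with start address `s` and exit address `e` -/
def X6_comp : Prog ℕ → ℕ → ℕ → List Ins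
  | .skip, _, e => [(0, 0, false, e, 0, 0)]
  | .push k b, _, e => [(1, k, b, e, 0, 0)]
  | .seq p q, s, e => X6_comp p s (s + X6_len p) ++ X6_comp q (s + X6_len p) e
  | .loop k p q, s, e => (2, k, false, e, s + 1, s + 1 + X6_len p) ::
      (X6_comp p (s + 1) s ++ X6_comp q (s + 1 + X6_len p) s)
  | .ifp k o p q, s, e =>
      (2, k, false, s + 1, s + 1 + X6_len o, s + 1 + X6_len o + X6_len p) ::
      (X6_comp o (s + 1) e ++ (X6_comp p (s + 1 + X6_len o) e ++
        X6_comp q (s + 1 + X6_len o + X6_len p) e))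

/-- a bound for the stacks which are used -/
def X6_mx : Prog ℕ → ℕ
  | .skip => 0
  | .push k _ => k + 1
  | .seq p q => max (X6_mx p) (X6_mx q)
  | .loop k p q => max (k + 1) (max (X6_mx p) (X6_mx q))
  | .ifp k o p q => max (k + 1) (max (X6_mx o) (max (X6_mx p) (X6_mx q)))

theorem X6_length (p : Prog ℕ) : ∀ s e, (X6_comp p s e).length = X6_len p := by
  induction p with
  | skip => intro s e; rfl
  | push k b => intro s e; rfl
  | seq p q ihp ihq =>
    intro s e
    simp [X6_comp, X6_len, ihp, ihq]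
  | loop k p q ihp ihq =>
    intro s e
    simp [X6_comp, X6_len, ihp, ihq]
  | ifp k o p q iho ihp ihq =>
    intro s e
    simp [X6_comp, X6_len, iho, ihp, ihq]

/-- the list `l` is contained in `L` at the address `s` -/
def X6_At (L : List Ins) (s : ℕ) (l : List Ins) : Prop := ∀ i < l.length, L[s + i]? = l[i]?

theorem X6_At_app {L : List Ins} {s : ℕ} {l l' : List Ins} (h : X6_At L s (l ++ l')) :
    X6_At L s l ∧ X6_At L (s + l.length) l' := by
  constructor
  · intro i hi
    rw [h i (by rw [List.length_append]; omega), List.getElem?_append_left hi]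
  · intro i hi
    have h1 := h (l.length + i) (by rw [List.length_append]; omega)
    rw [← add_assoc] at h1
    rw [h1, List.getElem?_append_right (by omega)]
    congr 1
    omega

theorem X6_At_cons {L : List Ins} {s : ℕ} {a : Ins} {l : List Ins} (h : X6_At L s (a :: l)) :
    L[s]? = some a ∧ X6_At L (s + 1) l := by
  constructor
  · have h1 := h 0 (by simp)
    simpa using h1
  · intro i hi
    have h1 := h (i + 1) (by simpa using hi)
    rw [show s + (i + 1) = s + 1 + i by omega] at h1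
    rw [h1]
    simp

/-- `st` represents the first `M` stacks of `S` -/
def X6_Rp (M : ℕ) (st : List W) (S : ℕ → W) : Prop :=
  st.length = M ∧ ∀ i < M, st.getD i [] = S i

theorem X6_Rp_set {M : ℕ} {st : List W} {S : ℕ → W} (h : X6_Rp M st S) (k : ℕ) (x : W) :
    X6_Rp M (st.set k x) (update S k x) := by
  obtain ⟨h1, h2⟩ := h
  refine ⟨by rw [List.length_set, h1], fun i hi => ?_⟩
  rw [List.getD_eq_getElem?_getD, List.getElem?_set]
  by_cases hik : k = i
  · subst hik
    simp [h1, hi]
  · rw [if_neg hik, update_of_ne (Ne.symm hik), ← List.getD_eq_getElem?_getD]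
    exact h2 i hi

theorem X6_run {p : Prog ℕ} {S S' : ℕ → W} {n : ℕ} (hx : Exec p S S' n) :
    ∀ (L : List Ins) (M s e : ℕ), X6_At L s (X6_comp p s e) → X6_mx p ≤ M →
    ∀ st : List W, X6_Rp M st S → ∃ st', X6_Rp M st' S' ∧ (gstep L)^[n] (s, st) = (e, st') := by
  induction hx with
  | skip S =>
    intro L M s e hL _ st hst
    refine ⟨st, hst, ?_⟩
    obtain ⟨h1, -⟩ := X6_At_cons hL
    rw [iterate_one]
    simp [gstep, h1]
  | push k b S =>
    intro L M s e hL hM st hst
    refine ⟨st.set k (b :: S k), X6_Rp_set hst k _, ?_⟩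
    obtain ⟨h1, -⟩ := X6_At_cons hL
    have hk : st.getD k [] = S k := hst.2 k (by
      have : X6_mx (.push k b) = k + 1 := rfl
      omega)
    rw [iterate_one]
    simp only [gstep, h1, hk]
    simp
  | @seq p q S S' S'' n m _ _ ih1 ih2 =>
    intro L M s e hL hM st hst
    obtain ⟨h1, h2⟩ := X6_At_app hL
    rw [X6_length] at h2
    have hM1 : X6_mx p ≤ M := (le_max_left _ _).trans hM
    have hM2 : X6_mx q ≤ M := (le_max_right _ _).trans hM
    obtain ⟨st1, hst1, e1⟩ := ih1 L M s _ h1 hM1 st hst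
    obtain ⟨st2, hst2, e2⟩ := ih2 L M _ e h2 hM2 st1 hst1
    refine ⟨st2, hst2, ?_⟩
    rw [add_comm, iterate_add_apply, e1, e2]
  | @loop_nil k pf pt S h =>
    intro L M s e hL hM st hst
    obtain ⟨h1, -⟩ := X6_At_cons hL
    have hk : st.getD k [] = S k := hst.2 k ((le_max_left _ _).trans hM)
    refine ⟨st, hst, ?_⟩
    rw [iterate_one]
    simp only [gstep, h1, hk, h]
    simp
  | @loop_false k pf pt S l S' S'' n m h _ _ ih1 ih2 =>
    intro L M s e hL hM st hst
    obtain ⟨h1, h2⟩ := X6_At_cons hL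
    obtain ⟨h3, h4⟩ := X6_At_app h2
    have hk : st.getD k [] = S k := hst.2 k ((le_max_left _ _).trans hM)
    have hM1 : X6_mx pf ≤ M := (le_max_left _ _).trans ((le_max_right _ _).trans hM)
    have e0 : gstep L (s, st) = (s + 1, st.set k l) := by
      simp only [gstep, h1, hk, h]
      simp
    obtain ⟨st1, hst1, e1⟩ := ih1 L M _ _ h3 hM1 _ (X6_Rp_set hst k l)
    obtain ⟨st2, hst2, e2⟩ := ih2 L M s e hL hM st1 hst1
    refine ⟨st2, hst2, ?_⟩
    rw [show 1 + n + m = m + (n + 1) by omega, iterate_add_apply, iterate_succ_apply, e0, e1, e2]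
  | @loop_true k pf pt S l S' S'' n m h _ _ ih1 ih2 =>
    intro L M s e hL hM st hst
    obtain ⟨h1, h2⟩ := X6_At_cons hL
    obtain ⟨h3, h4⟩ := X6_At_app h2
    rw [X6_length] at h4
    have hk : st.getD k [] = S k := hst.2 k ((le_max_left _ _).trans hM)
    have hM1 : X6_mx pt ≤ M := (le_max_right _ _).trans ((le_max_right _ _).trans hM)
    have e0 : gstep L (s, st) = (s + 1 + X6_len pf, st.set k l) := by
      simp only [gstep, h1, hk, h]
      simp
    obtain ⟨st1, hst1, e1⟩ := ih1 L M _ _ h4 hM1 _ (X6_Rp_set hst k l)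
    obtain ⟨st2, hst2, e2⟩ := ih2 L M s e hL hM st1 hst1
    refine ⟨st2, hst2, ?_⟩
    rw [show 1 + n + m = m + (n + 1) by omega, iterate_add_apply, iterate_succ_apply, e0, e1, e2]
  | @ifp_nil k pn pf pt S S' n h _ ih1 =>
    intro L M s e hL hM st hst
    obtain ⟨h1, h2⟩ := X6_At_cons hL
    obtain ⟨h3, h4⟩ := X6_At_app h2
    have hk : st.getD k [] = S k := hst.2 k ((le_max_left _ _).trans hM)
    have hM1 : X6_mx pn ≤ M := (le_max_left _ _).trans ((le_max_right _ _).trans hM)
    have e0 : gstep L (s, st) = (s + 1, st) := by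
      simp only [gstep, h1, hk, h]
      simp
    obtain ⟨st1, hst1, e1⟩ := ih1 L M _ _ h3 hM1 _ hst
    refine ⟨st1, hst1, ?_⟩
    rw [show 1 + n = n + 1 by omega, iterate_succ_apply, e0, e1]
  | @ifp_false k pn pf pt S l S' n h _ ih1 =>
    intro L M s e hL hM st hst
    obtain ⟨h1, h2⟩ := X6_At_cons hL
    obtain ⟨h3, h4⟩ := X6_At_app h2
    rw [X6_length] at h4
    obtain ⟨h5, h6⟩ := X6_At_app h4
    have hk : st.getD k [] = S k := hst.2 k ((le_max_left _ _).trans hM)
    have hM1 : X6_mx pf ≤ M := (le_max_left _ _).trans ((le_max_right _ _).trans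
      ((le_max_right _ _).trans hM))
    have e0 : gstep L (s, st) = (s + 1 + X6_len pn, st.set k l) := by
      simp only [gstep, h1, hk, h]
      simp
    obtain ⟨st1, hst1, e1⟩ := ih1 L M _ _ h5 hM1 _ (X6_Rp_set hst k l)
    refine ⟨st1, hst1, ?_⟩
    rw [show 1 + n = n + 1 by omega, iterate_succ_apply, e0, e1]
  | @ifp_true k pn pf pt S l S' n h _ ih1 =>
    intro L M s e hL hM st hst
    obtain ⟨h1, h2⟩ := X6_At_cons hL
    obtain ⟨h3, h4⟩ := X6_At_app h2
    rw [X6_length] at h4
    obtain ⟨h5, h6⟩ := X6_At_app h4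
    rw [X6_length] at h6
    have hk : st.getD k [] = S k := hst.2 k ((le_max_left _ _).trans hM)
    have hM1 : X6_mx pt ≤ M := (le_max_right _ _).trans ((le_max_right _ _).trans
      ((le_max_right _ _).trans hM))
    have e0 : gstep L (s, st) = (s + 1 + X6_len pn + X6_len pf, st.set k l) := by
      simp only [gstep, h1, hk, h]
      simp
    obtain ⟨st1, hst1, e1⟩ := ih1 L M _ _ h6 hM1 _ (X6_Rp_set hst k l)
    refine ⟨st1, hst1, ?_⟩
    rw [show 1 + n = n + 1 by omega, iterate_succ_apply, e0, e1]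

theorem X6_poly (c : Polynomial ℕ) : ∃ d : ℕ, ∀ n : ℕ, c.eval n ≤ (n + 2) ^ d := by
  induction c using Polynomial.induction_on' with
  | add p q hp hq =>
    obtain ⟨d1, h1⟩ := hp
    obtain ⟨d2, h2⟩ := hq
    refine ⟨max d1 d2 + 1, fun n => ?_⟩
    rw [Polynomial.eval_add]
    have a1 : (n + 2) ^ d1 ≤ (n + 2) ^ max d1 d2 :=
      Nat.pow_le_pow_right (by omega) (le_max_left _ _)
    have a2 : (n + 2) ^ d2 ≤ (n + 2) ^ max d1 d2 :=
      Nat.pow_le_pow_right (by omega) (le_max_right _ _)
    calc p.eval n + q.eval n ≤ (n + 2) ^ max d1 d2 + (n + 2) ^ max d1 d2 :=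
          add_le_add ((h1 n).trans a1) ((h2 n).trans a2)
      _ = (n + 2) ^ max d1 d2 * 2 := by ring
      _ ≤ (n + 2) ^ max d1 d2 * (n + 2) := Nat.mul_le_mul_left _ (by omega)
      _ = (n + 2) ^ (max d1 d2 + 1) := by rw [pow_succ]
  | monomial i a =>
    refine ⟨a + i, fun n => ?_⟩
    rw [Polynomial.eval_monomial, pow_add]
    apply Nat.mul_le_mul
    · calc a ≤ 2 ^ a := Nat.lt_two_pow_self.le
        _ ≤ (n + 2) ^ a := Nat.pow_le_pow_left (by omega) _
    · exact Nat.pow_le_pow_left (by omega) _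

theorem X6_stop (L : List Ins) (st : List W) (s : ℕ) (hs : L.length ≤ s) (m : ℕ) :
    (gstep L)^[m] (s, st) = (s, st) := by
  induction m with
  | zero => rfl
  | succ m ih =>
    rw [iterate_succ_apply]
    have h1 : L[s]? = none := List.getElem?_eq_none hs
    have e0 : gstep L (s, st) = (s, st) := by
      simp only [gstep, h1]
    rw [e0, ih]

theorem X6 : X6_stmt := by
  intro f hf
  obtain ⟨p, c, hrun⟩ := hf
  obtain ⟨d, hd⟩ := X6_poly c
  refine ⟨(X6_comp p 0 (X6_len p), X6_mx p, d), fun w => ?_⟩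
  obtain ⟨n, hn, hx⟩ := hrun w
  have hAt : X6_At (X6_comp p 0 (X6_len p)) 0 (X6_comp p 0 (X6_len p)) := by
    intro i _
    rw [zero_add]
  have hst : X6_Rp (X6_mx p + 1) (w :: List.replicate (X6_mx p) []) (update (fun _ => []) 0 w) := by
    refine ⟨by simp, fun i hi => ?_⟩
    rcases i with _ | i
    · simp
    · rw [update_of_ne (by omega)]
      rw [List.getD_cons_succ, List.getD_eq_getElem?_getD, List.getElem?_replicate]
      split_ifs <;> simp
  obtain ⟨st', hst', e1⟩ := X6_run hx _ (X6_mx p + 1) 0 (X6_len p) hAt (by omega) _ hst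
  have hT : (w.length + 2) ^ d = ((w.length + 2) ^ d - n) + n := by
    have := hd w.length
    omega
  have h0 : st'.getD 0 [] = f w := by
    have := hst'.2 0 (by omega)
    rw [this, update_self]
  change ((gstep (X6_comp p 0 (X6_len p)))^[(w.length + 2) ^ d]
    (0, w :: List.replicate (X6_mx p) [])).2.headD [] = f w
  rw [hT, iterate_add_apply, e1, X6_stop _ _ _ (by rw [X6_length])]
  rw [← h0]
  cases st' <;> rfl

end Pool.Agent.RI
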